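import Pool.Agent.H18.CGR.Stmts

/-!
Board cgr (MP_286349_an), helper18, part 2: freeness gives the Schwinger-Dyson equation; the
conjugate variables are self-adjoint; a positive functional is bounded.
-/

set_option autoImplicit false

noncomputable section

open Filter
open scoped Topology

namespace Pool.CGR

/-- The subalgebras `B j` are free for `τ`: the functional vanishes on every product
`a_1 a_2 … a_n`, `n ≥ 1`, of elements `a_k` with `τ(a_k) = 0` of `B (j_k)`, `j_1 ≠ j_2 ≠ … ≠ j_n`. -/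
def FreeAlg {A ι : Type} [Ring A] [Algebra ℂ A] (τ : A →ₗ[ℂ] ℂ) (B : ι → Subalgebra ℂ A) : Prop :=
  ∀ l : List (ι × A), l ≠ [] → l.IsChain (fun a b => a.1 ≠ b.1) →
    (∀ a ∈ l, a.2 ∈ B a.1 ∧ τ a.2 = 0) → τ (l.map Prod.snd).prod = 0

/-- `S_1, …, S_m` are standard semicircular elements, and the algebras `ℂ⟨y_1, …, y_m⟩`, `ℂ⟨S_1⟩`,
…, `ℂ⟨S_m⟩` are free. -/
def FreeSemi {m : ℕ} {A : Type} [Ring A] [Algebra ℂ A] (τ : A →ₗ[ℂ] ℂ) (y S : Fin m → A) : Prop :=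
  (∀ (i : Fin m) (n : ℕ), τ (S i ^ (2 * n)) = catalan n ∧ τ (S i ^ (2 * n + 1)) = 0) ∧
  FreeAlg τ (fun o : Option (Fin m) =>
    Algebra.adjoin ℂ (o.elim (Set.range y) fun i => {S i}))

/-- **FSA** (words are combinations of alternating centred products).  Let `V` be the span.  `1 ∈ V`
(`l = []`).  `V` is closed under left multiplication by a letter `ℓ = ι x` of colour `j = c x`: for
`q = a_1 … a_n`: if `n = 0` or the colour of `a_1` is not `j`: `ℓ = ℓ° + ψ(ℓ)`, `ℓ° = ℓ - ψ(ℓ) 1`, and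
`ℓ° a_1 … a_n` is alternating and centred.  If the colour of `a_1` is `j`:
`ℓ a_1 = (ℓ a_1)° + ψ(ℓ a_1)`, and `(ℓ a_1)° a_2 … a_n` and `a_2 … a_n` are alternating and centred.
So `V` is closed under left multiplication by everything (`FreeAlgebra.induction` for `p`, statement
`∀ q ∈ V, p * q ∈ V`), and `p = p * 1`. -/
def FSAStmt : Prop :=
  ∀ (X O : Type) (c : X → O) (ψ : FreeAlgebra ℂ X →ₗ[ℂ] ℂ), ψ 1 = 1 → ∀ p : FreeAlgebra ℂ X,
    p ∈ Submodule.span ℂ {q : FreeAlgebra ℂ X | ∃ l : List (O × FreeAlgebra ℂ X),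
      l.IsChain (fun a b => a.1 ≠ b.1) ∧
      (∀ a ∈ l, a.2 ∈ Algebra.adjoin ℂ (FreeAlgebra.ι ℂ '' (c ⁻¹' {a.1})) ∧ ψ a.2 = 0) ∧
      q = (l.map Prod.snd).prod}

/-- **FSB** (Schwinger-Dyson equation).  `X = Fin m ⊕ Fin m`, `z = Sum.elim y S`,
`c (inl _) = none`, `c (inr j) = some j`, `W = FreeAlgebra ℂ X`, `e = FreeAlgebra.lift ℂ z : W → A`,
`ψ = τ ∘ e`.  Define `Δ p a b = (τ(a ·) ⊗ τ(· b))(∂_(inr i) p)`: let
`M : W →ₐ[ℂ] Module.End ℂ (A × (A →ₗ[ℂ] ℂ))` be the lift of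
`x ↦ ((b, f) ↦ (z x * b, a ↦ [x = inr i] τ(a) τ(b) + f (a * z x)))`; then
`(M p (b, f)).1 = e p * b`, `(M p (b, f)).2 a = (M p (b, 0)).2 a + f (a * e p)`, and
`Δ p a b := (M p (b, 0)).2 a` satisfies `Δ (p q) a b = Δ p a (e q b) + Δ q (a e p) b`, `Δ 1 = 0`,
`Δ (ι x) a b = [x = inr i] τ(a) τ(b)`, and for a word `w` (product of letters)
`Δ w 1 1 = dq (τ ∘ ev z) (inr i) w` (first for all `a`, `b`: `Δ w a b = ∑_k [w_k = inr i]
τ(a * ev (take k)) τ(ev (drop (k+1)) * b)`, induction on `w`).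
CLAIM `τ (S_i * e p) = Δ p 1 1` for all `p`; both sides are linear, so by `FSA` let
`p = a_1 … a_n` be alternating and centred, colours `j_k`.  (0) `n = 0`: `τ(S_i) = 0 = Δ 1`.
(1) If `j ≠ some i` and `a` is in the algebra of colour `j` then `Δ a = 0` (as a function of `a, b`;
`Algebra.adjoin_induction`).  (2) If `a` has colour `some i` and `τ(u b) = 0` for all `u` in
`ℂ⟨S_i⟩` or `τ(b' u) = 0` for all `u` in `ℂ⟨S_i⟩` then `Δ a b' b = 0` (`a` is a polynomial in `S_i`: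
`adjoin_induction` with `Δ (p q)`, statement for all such `b`).
LEFT SIDE: `j_1 ≠ some i`: `τ (S_i a_1 … a_n) = 0` (freeness, `τ(S_i) = 0`).  `j_1 = some i`:
`S_i a_1 = (S_i a_1)° + τ(S_i a_1)`, so it is `τ (S_i a_1) τ(a_2 … a_n)`, `0` for `n ≥ 2`.
RIGHT SIDE: `Δ (a_1 … a_n) 1 1 = ∑_k Δ a_k (e(a_1 … a_(k-1))) (e(a_(k+1) … a_n))`; by (1) only the
`k` with `j_k = some i` count, and by (2) and freeness the term is `0` if `k > 1` or `k < n`
(`τ (a_1 … a_(k-1) u) = 0` for `u ∈ ℂ⟨S_i⟩`: decompose `u = u° + τ(u)`).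
`n = 1`, `j_1 = some i`: `τ (S_i e(a)) = Δ a 1 1` for `a` in the algebra generated by the letter
`inr i`: by linearity for its powers: `τ(S_i^(n+1)) = ∑_{k<n} τ(S_i^k) τ(S_i^(n-1-k))`
(`catalan_succ`; use the formula for `Δ` of the word `replicate n (inr i)`). -/
def FSBStmt : Prop :=
  ∀ (m : ℕ) (A : Type) [Ring A] [Algebra ℂ A] (τ : A →ₗ[ℂ] ℂ), τ 1 = 1 → ∀ y S : Fin m → A,
    FreeSemi τ y S → ∀ (i : Fin m) (w : List (Fin m ⊕ Fin m)),
      τ (S i * ev (Sum.elim y S) w) = dq (fun w => τ (ev (Sum.elim y S) w)) (Sum.inr i) w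

/-- **SAJ** (the conjugate variables are self-adjoint).  `dq φ i w.reverse = conj (dq φ i w)` for
`φ = τ ∘ ev x` (`φ w.reverse = conj (φ w)`; reindex `k ↦ |w| - 1 - k`).  So `τ (J_i^* ev x w) =
conj τ(ev x w.reverse * J_i) = τ (J_i ev x w)`; `d = J_i - J_i^*` satisfies `τ (d * p) = 0` for all
polynomials `p` in `x`, and `d` is a norm limit of such polynomials `p_n` (`hcl`, `star (p_n)` is a
polynomial); `d^* = - d`, `τ (d^* d) = - τ (d d) = - lim τ (d p_n) = 0`, `faithful`. -/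
def SAJStmt : Prop :=
  ∀ (m : ℕ) (A : Type) [CStarAlgebra A] (τ : A →ₗ[ℂ] ℂ), IsTrace τ → ∀ x : Fin m → A,
    (∀ i, IsSelfAdjoint (x i)) → ∀ (i : Fin m) (J : A),
    (∀ w : List (Fin m), τ (J * ev x w) = dq (fun w => τ (ev x w)) i w) →
    ∀ H : ℕ → (List (Fin m) →₀ ℂ),
      Tendsto (fun n => (H n).sum fun w r => r • cg x i w) atTop (𝓝 J) → IsSelfAdjoint J

/-- **TNB** (positive functionals are bounded).  `‖a‖^2 - a^* a = c^* c`, so
`τ (a^* a) ≤ ‖a‖^2`; Cauchy-Schwarz `|τ(a)|^2 ≤ τ(1) τ(a^* a)` (or use `IsTrace.comm`-free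
arguments: `0 ≤ τ ((a - z)^* (a - z))` with `z = τ(a)`, once `τ(a^*) = conj τ(a)` is known, which
follows from `im τ((a + z)^*(a + z)) = 0` for `z = 1, i`). -/
def TNBStmt : Prop :=
  ∀ (A : Type) [CStarAlgebra A] (τ : A →ₗ[ℂ] ℂ), τ 1 = 1 →
    (∀ a, 0 ≤ (τ (star a * a)).re ∧ (τ (star a * a)).im = 0) → ∀ a, ‖τ a‖ ≤ ‖a‖

end Pool.CGR
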