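import Pool.Agent.H18.CGR.Stmts

/-! Board cgr, row YRS (helper18). -/

set_option autoImplicit false

noncomputable section

namespace Pool.CGR

namespace YRSh

theorem yl_map {m : ℕ} (v : List (Fin m)) : yl (v.map (Sum.inl : Fin m → Fin m ⊕ Fin m)) = v := by
  induction v with
  | nil => rfl
  | cons a v ih =>
    simp only [yl, List.map_cons] at ih ⊢
    rw [List.filterMap_cons_some (b := a) (by rfl), ih]

theorem kz_map {m : ℕ} (k : Fin m → List (Fin m) → ℂ) (j : Fin m) (v : List (Fin m)) :
    kz k (Sum.inl j) (v.map Sum.inl) = k j v := by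
  show (if v.map Sum.inl = (yl (v.map Sum.inl)).map Sum.inl then k j (yl (v.map Sum.inl)) else 0) = _
  rw [yl_map, if_pos rfl]

theorem T_map {m : ℕ} (k : Fin m → List (Fin m) → ℂ) (j : Fin m) (f : List (Fin m) →₀ ℂ) :
    T (kz k) (Sum.inl j) (f.mapDomain (List.map Sum.inl)) =
      (T k j f).mapDomain (List.map Sum.inl) := by
  induction f using Finsupp.induction_linear with
  | zero => simp
  | add f g hf hg =>
    rw [Finsupp.mapDomain_add, map_add, hf, hg, map_add, Finsupp.mapDomain_add]
  | single u c =>
    have h1 : (Finsupp.single u c : List (Fin m) →₀ ℂ) = c • Finsupp.single u 1 := by simp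
    rw [h1, Finsupp.mapDomain_smul, map_smul, map_smul, Finsupp.mapDomain_smul]
    congr 1
    rw [Finsupp.mapDomain_single, T_single, T_single, Finsupp.mapDomain_add,
      Finsupp.mapDomain_single, List.map_cons, List.length_map]
    congr 1
    have h2 : ∀ (s : Finset ℕ) (g : ℕ → (List (Fin m) →₀ ℂ)),
        Finsupp.mapDomain (List.map (Sum.inl : Fin m → Fin m ⊕ Fin m)) (∑ i ∈ s, g i) =
          ∑ i ∈ s, Finsupp.mapDomain (List.map Sum.inl) (g i) := fun s g =>
      map_sum (Finsupp.lmapDomain ℂ ℂ (List.map (Sum.inl : Fin m → Fin m ⊕ Fin m))) g s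
    rw [h2]
    refine Finset.sum_congr rfl fun i _ => ?_
    rw [Finsupp.mapDomain_single, ← List.map_drop, ← List.map_take, kz_map]

end YRSh

theorem yrs_thm : YRSStmt := by
  intro m k w
  induction w using List.reverseRecOn with
  | nil => simp [nn_nil]
  | append_singleton w j ih =>
    rw [List.map_append, List.map_singleton, nn_append, ih, nn_append, YRSh.T_map]

end Pool.CGR
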