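import Pool.Agent.H18.CGR.COE
import Pool.Agent.H18.CGR.YRS
import Pool.Agent.H18.CGR.Stmts2
import Pool.Agent.H89.CGR.RRC
import Pool.Agent.H71.CGR.IOT
import Pool.Agent.H54.CGR.FSA
import Pool.Agent.H51.CGR.FSB
import Pool.Agent.H44.CGR.GRD
import Pool.Agent.H22.CGR.SAJ
import Pool.Agent.H21.CGR.TNB
import Pool.Agent.H12.CGR.CYC
import Pool.Agent.H21.CGR.NRM
import Pool.Agent.H22.CGR.SPN
import Pool.Agent.H25.CGR.LNW
import Pool.Agent.H25.CGR.TCO
import Pool.Agent.H26.CGR.PBD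
import Pool.Agent.H31.CGR.NBD
import Pool.Agent.H34.CGR.CYA
import Pool.Agent.H34.CGR.RUN
import Pool.Agent.H45.CGR.LAM
import Pool.Agent.H46.CGR.SCL
import Pool.Agent.H47.CGR.PEX
import Pool.Agent.H49.CGR.CYZ
import Pool.Agent.H51.CGR.KBD
import Pool.Agent.H52.CGR.MN1
import Pool.Agent.H54.CGR.EVA
import Pool.Agent.H54.CGR.MOM
import Pool.Agent.H56.CGR.PT1
import Pool.Agent.H58.CGR.NRA
import Pool.Agent.H66.CGR.MCZ
import Pool.Agent.H72.CGR.FIX
import Pool.Agent.H76.CGR.SHL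
import Pool.Agent.H78.CGR.WSM
import Pool.Agent.H80.CGR.CMT
import Pool.Agent.H86.CGR.CONC
import Pool.Agent.H91.CGR.LIF
import Pool.Agent.H93.CGR.EXT
import Pool.Agent.H93.CGR.LCM

/-!
Board cgr, helper18: the assembly.
-/

set_option autoImplicit false

noncomputable section

namespace Pool.CGR

theorem con' : CONStmt := con_thm tco_thm
theorem lnw' : LNWStmt := lnw_thm lcm_thm
theorem tra' : TRAStmt := tra_thm lnw' tco_thm lco_thm
theorem cya' : CYAStmt := cya_thm con' tco_thm lco_thm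
theorem kbd' : KBDStmt := kbd_thm pbd_thm wsm_thm
theorem nrm' : NRMStmt := nrm_thm nra_thm
theorem nbd' : NBDStmt := nbd_thm con'
theorem lam' : LAMStmt := lam_thm run_thm nbd' tco_thm
theorem jdq' : JDQStmt := jdq_thm lam' con'
theorem shl' : SHLStmt := shl_thm lif_thm ext_thm
theorem eva' : EVAStmt := eva_thm lif_thm ext_thm

theorem rrc' : RRCStmt := rrc_thm run_thm
theorem cyc' : CYCStmt := cyc_thm cya' spn_thm
theorem fsb' : FSBStmt := fsb_thm fsa_thm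

theorem coe' : COEStmt := coe_thm ext_thm lif_thm
theorem mcz' : MCZStmt := mcz_thm yrs_thm cyz_thm tra' con' tco_thm
theorem mn1' : MN1Stmt := mn1_thm kbd' pex_thm cyc' mcz' iot_thm nrm' mom_thm
    (pt1_thm shl' fix_thm rrc' cmt_thm coe' grd_thm eva' jdq')

theorem main' (m : ℕ) (A : Type) [CStarAlgebra A] (τ : A →ₗ[ℂ] ℂ) (hτ : IsTrace τ)
    (y S : Fin m → A) (s R : ℝ) (hs : 0 < s) (hy : ∀ i, IsSelfAdjoint (y i))
    (hS : ∀ i, IsSelfAdjoint (S i)) (h : IsSemi τ y S) (hR : ∀ i, ‖y i‖ ≤ R)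
    (hm : 100 * m * R ≤ s) : Lim τ fun i => y i + (s : ℂ) • S i :=
  scl_thm mn1' m A τ hτ y S s R hs hy hS h hR hm

end Pool.CGR
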