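import Pool.Agent.H18.CGR.Stmts

/-! Board cgr, row COE (helper18). -/

set_option autoImplicit false

noncomputable section

namespace Pool.CGR

namespace COEh

theorem del {m : ℕ} (hLIF : LIFStmt) (W : List (Fin m)) : ∃ L : E1 m →L[ℂ] ℂ,
    (∀ w, L (bb w) = if w = W then 1 else 0) ∧ ∀ f : E1 m, L f = f W := by
  obtain ⟨L, h1, _, h3⟩ := hLIF m ℂ (fun w => if w = W then 1 else 0) 1 zero_le_one
    (by intro w; split_ifs <;> simp)
  refine ⟨L, h1, fun f => ?_⟩
  have h4 := h3 f
  have h5 := hasSum_single (f := fun w => f w • (if w = W then (1 : ℂ) else 0)) W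
    (by intro w hw; simp [hw])
  rw [h4.unique h5]
  simp

end COEh

theorem coe_thm (hEXT : EXTStmt) (hLIF : LIFStmt) : COEStmt := by
  intro m X Y hX hY F hF a b u v huv
  have hXc : ∀ (i : Fin m) (f : E1 m) (c : Fin m) (W : List (Fin m)),
      (X i f) (c :: W) = if i = c then (5 / 2 : ℂ) * f W else 0 := by
    intro i f c W
    obtain ⟨L, hL1, hL2⟩ := COEh.del hLIF (c :: W)
    obtain ⟨M, hM1, hM2⟩ := COEh.del hLIF W
    have h : L.comp (X i) = (if i = c then (5 / 2 : ℂ) else 0) • M := by
      refine hEXT m ℂ _ _ fun w => ?_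
      rw [ContinuousLinearMap.comp_apply, hX, map_smul, hL1, ContinuousLinearMap.smul_apply, hM1]
      by_cases h1 : i = c
      · by_cases h2 : w = W
        · simp [h1, h2]
        · simp [h2]
      · simp [h1]
    have h2 := congrArg (fun Z : E1 m →L[ℂ] ℂ => Z f) h
    simp only [ContinuousLinearMap.comp_apply, ContinuousLinearMap.smul_apply, hL2, hM2,
      smul_eq_mul] at h2
    rw [h2]
    split_ifs <;> simp
  have hYc : ∀ (i : Fin m) (f : E1 m) (c : Fin m) (W : List (Fin m)),
      (Y i f) (W ++ [c]) = if i = c then (5 / 2 : ℂ) * f W else 0 := by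
    intro i f c W
    obtain ⟨L, hL1, hL2⟩ := COEh.del hLIF (W ++ [c])
    obtain ⟨M, hM1, hM2⟩ := COEh.del hLIF W
    have h : L.comp (Y i) = (if i = c then (5 / 2 : ℂ) else 0) • M := by
      refine hEXT m ℂ _ _ fun w => ?_
      rw [ContinuousLinearMap.comp_apply, hY, map_smul, hL1, ContinuousLinearMap.smul_apply, hM1]
      have h0 : (w ++ [i] = W ++ [c]) ↔ (w = W ∧ i = c) := by
        constructor
        · intro h
          have h3 := List.append_inj' h rfl
          exact ⟨h3.1, by simpa using h3.2⟩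
        · rintro ⟨rfl, rfl⟩
          rfl
      by_cases h1 : i = c
      · by_cases h2 : w = W
        · simp [h1, h2]
        · simp [h0, h2]
      · simp [h0, h1]
    have h2 := congrArg (fun Z : E1 m →L[ℂ] ℂ => Z f) h
    simp only [ContinuousLinearMap.comp_apply, ContinuousLinearMap.smul_apply, hL2, hM2,
      smul_eq_mul] at h2
    rw [h2]
    split_ifs <;> simp
  obtain ⟨L, hL1, hL2⟩ := COEh.del hLIF (a :: u)
  have h1 := congrArg L hF
  rw [map_sum, map_sum] at h1
  have h2 : ∀ i, L (X i (F i)) = if i = a then (5 / 2 : ℂ) * F i u else 0 := fun i => by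
    rw [hL2, hXc]
  have h3 : ∀ i, L (Y i (F i)) = if i = b then (5 / 2 : ℂ) * F i v else 0 := fun i => by
    rw [hL2, huv, hYc]
  simp only [h2, h3, Finset.sum_ite_eq', Finset.mem_univ, if_true] at h1
  exact mul_left_cancel₀ (by norm_num) h1

end Pool.CGR
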