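import Mathlib

/-!
Project CGR (MP_286349_an, conjugate variables and cyclic gradients), helper18: definitions.
-/

set_option autoImplicit false

noncomputable section

namespace Pool.CGR

/-- The value of the word `w` at `x`. -/
def ev {α A : Type*} [Monoid A] (x : α → A) (w : List α) : A := (w.map x).prod

/-- The sum of `φ(u) φ(v)` over all splittings `w = u i v`; for `φ = τ ∘ ev x` this is
`(τ ⊗ τ)(∂_i w)`. -/
def dq {α : Type*} [DecidableEq α] (φ : List α → ℂ) (i : α) (w : List α) : ℂ :=
  ∑ k ∈ Finset.range w.length, if w[k]? = some i then φ (w.take k) * φ (w.drop (k + 1)) else 0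

/-- The cyclic gradient of the word `w`: the sum of `v u` over all splittings `w = u i v`,
evaluated at `x`. -/
def cg {α A : Type*} [DecidableEq α] [Ring A] (x : α → A) (i : α) (w : List α) : A :=
  ∑ k ∈ Finset.range w.length, if w[k]? = some i then ev x (w.drop (k + 1) ++ w.take k) else 0

/-- `τ` is a faithful tracial state. -/
structure IsTrace {A : Type} [CStarAlgebra A] (τ : A →ₗ[ℂ] ℂ) : Prop where
  one : τ 1 = 1
  norm : ∀ a, ‖τ a‖ ≤ ‖a‖
  comm : ∀ a b, τ (a * b) = τ (b * a)
  pos : ∀ a, 0 ≤ (τ (star a * a)).re ∧ (τ (star a * a)).im = 0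
  faithful : ∀ a, τ (star a * a) = 0 → a = 0

/-- `S` is a free family of standard semicircular elements, free from `y`: the Schwinger-Dyson
equation `τ(S_i P(y,S)) = (τ ⊗ τ)(∂_{S_i} P)`. -/
def IsSemi {m : ℕ} {A : Type} [CStarAlgebra A] (τ : A →ₗ[ℂ] ℂ) (y S : Fin m → A) : Prop :=
  ∀ (i : Fin m) (w : List (Fin m ⊕ Fin m)), τ (S i * ev (Sum.elim y S) w) =
    dq (fun w => τ (ev (Sum.elim y S) w)) (Sum.inr i) w

/-! ### the canonical model -/

section model

variable {α : Type} [DecidableEq α]

/-- `F u'` if `u = i u'`, otherwise `0` -/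
def hd {E : Type*} [Zero E] (i : α) (u : List α) (F : List α → E) : E :=
  match u with
  | [] => 0
  | a :: u' => if a = i then F u' else 0

/-- `F u'` if `u = u' i`, otherwise `0` -/
def tl {E : Type*} [Zero E] (i : α) (u : List α) (F : List α → E) : E :=
  hd i u.reverse fun w => F w.reverse

/-- `e_u ↦ e_(j u) + ∑_{u = z v} κ(j, z) e_v` -/
def T (κ : α → List α → ℂ) (j : α) : (List α →₀ ℂ) →ₗ[ℂ] (List α →₀ ℂ) :=
  Finsupp.linearCombination ℂ fun u => Finsupp.single (j :: u) (1 : ℂ) +
    ∑ k ∈ Finset.range (u.length + 1), Finsupp.single (u.drop k) (κ j (u.take k))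

/-- `e_u ↦ e_(u i) + ∑_{u = v z} κ(i, z) e_v` -/
def Lf (κ : α → List α → ℂ) (i : α) : (List α →₀ ℂ) →ₗ[ℂ] (List α →₀ ℂ) :=
  Finsupp.linearCombination ℂ fun u => Finsupp.single (u ++ [i]) (1 : ℂ) +
    ∑ k ∈ Finset.range (u.length + 1), Finsupp.single (u.take k) (κ i (u.drop k))

/-- `T_(w_n) … T_(w_1) e_∅`; the coefficient `nn κ w u` is the sum over all ways to find
`u_n, …, u_1` as a subword of `w` of the product of the moments of the gaps, and `nn κ w []` is the
moment of `w` for the free cumulants `κ(i, v) = κ(v_n, …, v_1, i)`. -/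
def nn (κ : α → List α → ℂ) (w : List α) : List α →₀ ℂ :=
  w.foldl (fun f j => T κ j f) (Finsupp.single [] 1)

theorem nn_nil (κ : α → List α → ℂ) : nn κ [] = Finsupp.single [] 1 := rfl

theorem nn_append (κ : α → List α → ℂ) (w : List α) (j : α) :
    nn κ (w ++ [j]) = T κ j (nn κ w) := by
  simp [nn, List.foldl_append]

theorem T_single (κ : α → List α → ℂ) (j : α) (u : List α) :
    T κ j (Finsupp.single u 1) = Finsupp.single (j :: u) (1 : ℂ) +
      ∑ k ∈ Finset.range (u.length + 1), Finsupp.single (u.drop k) (κ j (u.take k)) := by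
  simp [T]

theorem Lf_single (κ : α → List α → ℂ) (i : α) (u : List α) :
    Lf κ i (Finsupp.single u 1) = Finsupp.single (u ++ [i]) (1 : ℂ) +
      ∑ k ∈ Finset.range (u.length + 1), Finsupp.single (u.take k) (κ i (u.drop k)) := by
  simp [Lf]

/-- cyclic invariance of the free cumulants -/
def CY (κ : α → List α → ℂ) : Prop := ∀ (i j : α) (u : List α), κ j (u ++ [i]) = κ i (j :: u)

/-- The polynomials `P_u(y)` dual to `nn`:
`P_(j u) = P_u y_j - ∑_{u = z v} τ(P_z y_j) P_v`. -/
def P {A : Type} [Ring A] [Algebra ℂ A] (τ : A →ₗ[ℂ] ℂ) (y : α → A) : List α → A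
  | [] => 1
  | j :: u => P τ y u * y j -
      ∑ k ∈ Finset.range (u.length + 1), τ (P τ y (u.take k) * y j) • P τ y (u.drop k)
termination_by w => w.length
decreasing_by all_goals (simp_wf; try omega)

/-- the free cumulants of `y` -/
def ky {A : Type} [Ring A] [Algebra ℂ A] (τ : A →ₗ[ℂ] ℂ) (y : α → A) (i : α) (v : List α) : ℂ :=
  τ (P τ y v * y i)

end model

/-- the letters `y_i` of a word in the letters `y_i`, `S_i` -/
def yl {m : ℕ} (v : List (Fin m ⊕ Fin m)) : List (Fin m) := v.filterMap Sum.getLeft?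

/-- the free cumulants of `y, S` -/
def kz {m : ℕ} (k : Fin m → List (Fin m) → ℂ) (a : Fin m ⊕ Fin m) (v : List (Fin m ⊕ Fin m)) : ℂ :=
  match a with
  | Sum.inl i => if v = (yl v).map Sum.inl then k i (yl v) else 0
  | Sum.inr i => if v = [Sum.inr i] then 1 else 0

/-- the free cumulants of `y + S` -/
def kx {m : ℕ} (k : Fin m → List (Fin m) → ℂ) (i : Fin m) (v : List (Fin m)) : ℂ :=
  k i v + if v = [i] then 1 else 0

/-- the bound of the free cumulants -/
def Kb {m : ℕ} (k : Fin m → List (Fin m) → ℂ) : Prop :=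
  ∀ i, Summable (fun v : List (Fin m) => ‖k i v‖ * 4 ^ v.length) ∧
    ∑' v : List (Fin m), ‖k i v‖ * 4 ^ v.length ≤ 1 / 4

/-- The family `F` is a solution of the recursion with the operators `X`. -/
structure Sol {m : ℕ} {E : Type} [NormedAddCommGroup E] [NormedSpace ℂ E]
    (k : Fin m → List (Fin m) → ℂ) (X : Fin m → E → E) (e : E) (F : List (Fin m) → E) : Prop where
  nil : F [] = e
  bdd : ∃ B : ℝ, ∀ u, ‖F u‖ ≤ B * 4 ^ u.length
  step : ∀ (i : Fin m) (u : List (Fin m)),
    X i (F u) = F (i :: u) + hd i u F + ∑' v : List (Fin m), k i v • F (v ++ u)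

/-- the space `ℓ¹` over the words -/
abbrev E1 (m : ℕ) : Type := lp (fun _ : List (Fin m) => ℂ) 1

/-- the unit vector of the word `w` (it stands for `(2/5)^|w|` times the monomial `w`) -/
def bb {m : ℕ} (w : List (Fin m)) : E1 m := lp.single 1 w (1 : ℂ)

/-- the words of length less than `k` -/
def wds (m k : ℕ) : Finset (List (Fin m)) :=
  (Finset.range k).biUnion fun n => Finset.univ.image fun f : Fin n → Fin m => List.ofFn f

theorem mem_wds {m k : ℕ} {w : List (Fin m)} : w ∈ wds m k ↔ w.length < k := by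
  simp only [wds, Finset.mem_biUnion, Finset.mem_range, Finset.mem_image, Finset.mem_univ,
    true_and]
  constructor
  · rintro ⟨n, hn, f, rfl⟩
    simpa using hn
  · intro h
    exact ⟨w.length, h, fun i => w.get i, by simp⟩

end Pool.CGR
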