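import Pool.Agent.H18.CGR.Defs

/-!
Board cgr (MP_286349_an), helper18: row XXX = `def XXXStmt : Prop`.

THEOREM (`MainStmt`): `x = y + s S` with `S` free semicircular, free from `y`, and
`s ≥ 100 m max ‖y_i‖`: the conjugate variables of `x` are norm limits of cyclic gradients of
polynomials.

IDEA.  Scale to `s = 1`.  Free cumulants of `x`: `kx k`, `k` = cumulants of `y` (`KBD`: small).  The
higher conjugate variables `ξ_u` satisfy `x_i ξ_u = ξ_(iu) + [u = i u'] ξ_u' + ∑_v k(i,v) ξ_(vu)`; this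
recursion is a contraction (weight `4^|u|`), so it has a unique solution, also in the space `ℓ¹` of
power series (`FIX`, `RUN`).  By cyclicity of the cumulants the formal solution satisfies the
recursion from the right also (`RRC`), so `∑ [X_i, F_i] = 0` (`CMT`), so `F_i = D_i V` (`COE`, `GRD`).
`LAM`, `JDQ`: the value of `F_i` at `x` is the conjugate variable.
-/

set_option autoImplicit false

noncomputable section

open Filter
open scoped Topology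

namespace Pool.CGR

/-! ### The canonical model (words, `Finsupp`; no analysis) -/

/-- **TCO** (coefficients of `T`).  Both sides are linear in `f` (`Finsupp.induction_linear`; the tsum
has finite support, since `v ↦ v ++ u` is injective), `f = single U c`: `T_single`; the terms `k` with
`U.drop k = u` correspond to `v = U.take k`, `U = v ++ u` (exactly one `v` or none). -/
def TCOStmt : Prop :=
  ∀ (α : Type) [DecidableEq α] (κ : α → List α → ℂ) (j : α) (f : List α →₀ ℂ) (u : List α),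
    T κ j f u = hd j u f + ∑' v : List α, κ j v * f (v ++ u)

/-- **LCO** (coefficients of `Lf`).  As `TCO`. -/
def LCOStmt : Prop :=
  ∀ (α : Type) [DecidableEq α] (κ : α → List α → ℂ) (i : α) (f : List α →₀ ℂ) (u : List α),
    Lf κ i f u = tl i u f + ∑' v : List α, κ i v * f (u ++ v)

/-- **CON** (concatenation).  Induction on `w` from the end (`List.reverseRecOn`, `nn_append`,
`TCO`), for all `v` and `u`.  `w = []`: both sides are `0`.  `w ++ [j]`, `v = []`: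
left `[a = j] nn w u + ∑_z κ(j,z) nn w (z ++ a :: u)`; right: the split at the last letter gives
`[a = j] nn w u * nn [] []`, the others `nn (w.take k) u * nn (w.drop (k+1) ++ [j]) []` and
`nn (w₁ ++ [j]) [] = ∑_z κ(j,z) nn w₁ z`; use the induction hypothesis for `v := z`.
`v = b :: v'`: left `[b = j] nn w (v' ++ a :: u) + ∑_z κ(j,z) nn w (z ++ v ++ a :: u)`; right: the last
split is `0` (`nn [] v = 0`), the others have `nn (w₁ ++ [j]) v = [b = j] nn w₁ v' + ∑_z κ(j,z)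
nn w₁ (z ++ v)`. -/
def CONStmt : Prop :=
  ∀ (α : Type) [DecidableEq α] (κ : α → List α → ℂ) (a : α) (u v w : List α),
    nn κ w (v ++ a :: u) = ∑ k ∈ Finset.range w.length,
      if w[k]? = some a then nn κ (w.take k) u * nn κ (w.drop (k + 1)) v else 0

/-- **LCM** (`T_j` and `L_i` commute).  Linear in `f`, so `f = single u 1`.  Both sides are
`e_(j u i) + ∑_{u = z v} κ(j,z) e_(v i) + ∑_{u = v z} κ(i,z) e_(j v) + ∑_{u = z v z'} κ(j,z) κ(i,z') e_v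
+ c e_[]` with `c = κ(j, u i)` and `c = κ(i, j u)`. -/
def LCMStmt : Prop :=
  ∀ (α : Type) [DecidableEq α] (κ : α → List α → ℂ), CY κ → ∀ (i j : α) (f : List α →₀ ℂ),
    T κ j (Lf κ i f) = Lf κ i (T κ j f)

/-- **LNW**.  Induction on `w` from the end, `nn_append`, `LCM`; `w = []`: `T κ i (single [] 1) =
Lf κ i (single [] 1)`. -/
def LNWStmt : Prop :=
  ∀ (α : Type) [DecidableEq α] (κ : α → List α → ℂ), CY κ → ∀ (i : α) (w : List α),
    nn κ (i :: w) = Lf κ i (nn κ w)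

/-- **TRA** (the model is tracial).  `LNW`; `(Lf κ i f) [] = ∑_z κ(i,z) f(z) = (T κ i f) []` (`TCO`,
`LCO`). -/
def TRAStmt : Prop :=
  ∀ (α : Type) [DecidableEq α] (κ : α → List α → ℂ), CY κ → ∀ (i : α) (w : List α),
    nn κ (i :: w) [] = nn κ (w ++ [i]) []

/-- **SPN** (the vectors `nn κ w` span).  Induction on the length of `u`: `nn κ u.reverse = e_u +`
(combination of `e_v` with `|v| < |u|`); prove this by induction on `w = u.reverse` from the end. -/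
def SPNStmt : Prop :=
  ∀ (α : Type) [DecidableEq α] (κ : α → List α → ℂ) (u : List α),
    Finsupp.single u (1 : ℂ) ∈ Submodule.span ℂ (Set.range (nn κ))

/-- **CYA**.  Compare the coefficients at `v`.  `v = []`: hypothesis, `TCO`, `LCO`.  `v = v' ++ [a]`: `CON`
for `i :: w` with `u = []`: the split at the first letter gives `[i = a] nn w v'`, the others
`nn (i :: g) [] * nn w₁ v'` for `w = g a w₁`, and `nn (i :: g) [] = nn (g ++ [i]) [] =
∑_z κ(i,z) nn g z`; `CON` backwards: `∑_z κ(i,z) nn w (v' ++ a :: z)`. -/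
def CYAStmt : Prop :=
  ∀ (α : Type) [DecidableEq α] (κ : α → List α → ℂ),
    (∀ (i : α) (w : List α), nn κ (i :: w) [] = nn κ (w ++ [i]) []) →
    ∀ (i : α) (w : List α), nn κ (i :: w) = Lf κ i (nn κ w)

/-- **CYC** (cyclicity of the cumulants of a trace).  For `f = nn κ w`: `(T_j L_i f) [] =
nn (i :: w ++ [j]) [] = nn (w ++ [j] ++ [i]) [] = (T_i T_j f) []` (`CYA`, hypothesis); by `SPN` this
holds for all `f`; for `f = e_u`: `(T_j L_i e_u) [] = κ(j, u i) + ∑_{u = v z} κ(i,z) κ(j,v)`,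
`(T_i T_j e_u) [] = κ(i, j u) + ∑_{u = z v} κ(j,z) κ(i,v)`. -/
def CYCStmt : Prop :=
  ∀ (α : Type) [DecidableEq α] (κ : α → List α → ℂ),
    (∀ (i : α) (w : List α), nn κ (i :: w) [] = nn κ (w ++ [i]) []) → CY κ

/-! ### The cumulants of `y`, of `y, S` and of `y + S` -/

/-- **PEX**.  `Φ = Finsupp.linearCombination ℂ (P τ y)`.  `Φ (T j f) = Φ f * y_j` (for `f = e_u`:
definition of `P`), so `Φ (nn w) = ev y w`.  `τ (P_u) = [u = []]` by induction on the length: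
`τ (P_(ju)) = ky(j,u) - ∑_{u = z v} ky(j,z) τ(P_v)`, only `v = []` counts.  So `τ (Φ f) = f []`. -/
def PEXStmt : Prop :=
  ∀ (α : Type) [DecidableEq α] (A : Type) [Ring A] [Algebra ℂ A] (τ : A →ₗ[ℂ] ℂ) (y : α → A),
    τ 1 = 1 → ∀ w : List α, nn (ky τ y) w [] = τ (ev y w)

/-- **PBD**.  Let `p_0 = 1`, `p_(n+1) = R (p_n + ∑_{l ≤ n} p_l p_(n-l))`; by strong induction
`‖P_u‖ ≤ p_|u|` (`‖1‖ ≤ 1` as `τ 1 = 1`, so `A` is not trivial; for `|τ(P_z y_j)| ≤ R p_|z|` use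
`IsTrace.norm`).  If `R > 0`, `z = 1 / (6 R)`, `s_N = ∑_{n ≤ N} p_n z^n`, then
`s_(N+1) ≤ 1 + z R (s_N + s_N^2) ≤ 1 + 6/6 = 2` if `s_N ≤ 2`; so `p_n z^n ≤ 2`.  (`R = 0`: `P_u = 0` for
`u ≠ []`.) -/
def PBDStmt : Prop :=
  ∀ (m : ℕ) (A : Type) [CStarAlgebra A] (τ : A →ₗ[ℂ] ℂ), IsTrace τ → ∀ (y : Fin m → A) (R : ℝ),
    0 ≤ R → (∀ i, ‖y i‖ ≤ R) → ∀ u : List (Fin m), ‖P τ y u‖ ≤ 2 * (6 * R) ^ u.length

/-- **WSM**.  Partition the words by their length (`m^n` words of length `n`; e.g. the equivalence of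
`List (Fin m)` with `Σ n, (Fin n → Fin m)`, `List.equivSigmaTuple`; `summable_sigma_of_nonneg`,
`tsum_sigma'`; `Fintype.card_fun`), geometric series. -/
def WSMStmt : Prop :=
  ∀ (m : ℕ) (c : ℝ), 0 ≤ c → m * c < 1 →
    Summable (fun v : List (Fin m) => c ^ v.length) ∧
    ∑' v : List (Fin m), c ^ v.length = 1 / (1 - m * c)

/-- **KBD**.  `|ky(i,v)| ≤ 2 R (6R)^|v|` (`PBD`, `IsTrace.norm`), `WSM` with `c = 24 R`:
`∑ ≤ 2 R / (1 - 24 m R) ≤ 1/4` (`m ≥ 1` because of `i`, so `R ≤ 1/100`). -/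
def KBDStmt : Prop :=
  ∀ (m : ℕ) (A : Type) [CStarAlgebra A] (τ : A →ₗ[ℂ] ℂ), IsTrace τ → ∀ (y : Fin m → A) (R : ℝ),
    0 ≤ R → (∀ i, ‖y i‖ ≤ R) → 100 * m * R ≤ 1 → Kb (ky τ y)

/-- **CYZ**.  By cases: all letters of `j, u, i` are `y`'s: `CY k`; all are `S`'s: both sides are
`[u = [] and i = j]`; mixed: both sides are `0`. -/
def CYZStmt : Prop :=
  ∀ (m : ℕ) (k : Fin m → List (Fin m) → ℂ), CY k → CY (kz k)

/-- **YRS**.  Induction on `w` from the end; `T (kz k) (inl j)` of `single (u.map inl) 1` is the image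
of `T k j (single u 1)`. -/
def YRSStmt : Prop :=
  ∀ (m : ℕ) (k : Fin m → List (Fin m) → ℂ) (w : List (Fin m)),
    nn (kz k) (w.map Sum.inl) = (nn k w).mapDomain (List.map Sum.inl)

/-- **MCZ** (the joint law of `y, S`).  Strong induction on the length.  No letter `S`: `YRS`.
Otherwise rotate (both sides are invariant: `IsTrace.comm`; `TRA`, `CYZ`) until the word is
`w ++ [inr i]`: left `τ (S_i * ev w)` = `IsSemi`; right `(T (inr i) (nn w)) [] = nn w [inr i]` (`TCO`)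
= the same sum by `CON` (`u = v = []`); induction hypothesis. -/
def MCZStmt : Prop :=
  ∀ (m : ℕ) (A : Type) [CStarAlgebra A] (τ : A →ₗ[ℂ] ℂ), IsTrace τ → ∀ y S : Fin m → A,
    IsSemi τ y S → ∀ k : Fin m → List (Fin m) → ℂ, CY k →
    (∀ w : List (Fin m), τ (ev y w) = nn k w []) →
    ∀ w : List (Fin m ⊕ Fin m), τ (ev (Sum.elim y S) w) = nn (kz k) w []

/-- **IOT** (the law of `y + S`).  `ι : (List (Fin m) →₀ ℂ) →ₗ (List (Fin m ⊕ Fin m) →₀ ℂ)`,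
`ι e_[] = e_[]`, `ι e_(a u) = (y_a-creation + S_a-creation) (ι e_u)` = sum over all labellings of `u`.
`(T (inl j) + T (inr j)) (ι f) = ι (T (kx k) j f)`: for `e_u` (induction on `u` for the prefixes which
are labelled `y` only).  So with `X_w = (T (inl w_n) + T (inr w_n)) … (T (inl w_1) + T (inr w_1))`:
`X_w e_[] = ι (nn (kx k) w)`, and `(ι f) [] = f []`.  By induction on `w`, for all `p`:
`τ (ev z p * ev (y+S) w) = (X_w (nn (kz k) p)) []`. -/
def IOTStmt : Prop :=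
  ∀ (m : ℕ) (k : Fin m → List (Fin m) → ℂ) (A : Type) [Ring A] [Algebra ℂ A] (τ : A →ₗ[ℂ] ℂ)
    (y S : Fin m → A), (∀ w : List (Fin m ⊕ Fin m), τ (ev (Sum.elim y S) w) = nn (kz k) w []) →
    ∀ w : List (Fin m), τ (ev (fun i => y i + S i) w) = nn (kx k) w []

/-- **MOM**.  `IsSemi` for `w = replicate n (inr i)`: `τ (S^(n+1)) = ∑_{k<n} τ (S^k) τ (S^(n-1-k))`.
Odd moments vanish by strong induction; even ones: `catalan_succ`. -/
def MOMStmt : Prop :=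
  ∀ (m : ℕ) (A : Type) [CStarAlgebra A] (τ : A →ₗ[ℂ] ℂ), IsTrace τ → ∀ y S : Fin m → A,
    IsSemi τ y S → ∀ (i : Fin m) (n : ℕ), τ (S i ^ (2 * n)) = catalan n

/-- **NRA**.  `f n = Re τ (b* S^(2n) b) ≥ 0`, `f (n+1)^2 ≤ f n f (n+2)` (Cauchy-Schwarz for the
positive form `⟨a, b⟩ = τ (a* b)`), `f n = Re τ (S^n b b* S^n) ≤ ‖b‖^2 τ (S^(2n))` (`‖b‖^2 - b b* = c* c`
in a C*-algebra) `≤ ‖b‖^2 4^n` (hypothesis).  If `f 0 = 0` then `b = 0`; otherwise
`f n / f 0 ≥ (f 1 / f 0)^n`, so `(f 1 / f 0)^n ≤ (‖b‖^2 / f 0) 4^n` for all `n`. -/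
def NRAStmt : Prop :=
  ∀ (A : Type) [CStarAlgebra A] (τ : A →ₗ[ℂ] ℂ), IsTrace τ → ∀ a : A, IsSelfAdjoint a →
    (∀ n : ℕ, (τ (a ^ (2 * n))).re ≤ 4 ^ n) →
    ∀ b : A, (τ (star b * a ^ 2 * b)).re ≤ 4 * (τ (star b * b)).re

/-- **NRM**.  `NRA`: `τ (b* (4 - a^2) b) ≥ 0` for all `b`.  With the negative part `c ≥ 0` of
`4 - a^2` (continuous functional calculus, `c (4 - a^2) = - c^2`) and `b = c`: `- τ (c^3) ≥ 0`, while
`c^3 = (c^(3/2))* c^(3/2)`, so `c = 0` (faithful), `a^2 ≤ 4`, `‖a‖^2 = ‖a^2‖ ≤ 4`. -/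
def NRMStmt : Prop :=
  ∀ (A : Type) [CStarAlgebra A] (τ : A →ₗ[ℂ] ℂ), IsTrace τ → ∀ a : A, IsSelfAdjoint a →
    (∀ n : ℕ, (τ (a ^ (2 * n))).re ≤ 4 ^ n) → ‖a‖ ≤ 2

/-! ### The recursion -/

/-- **RUN** (uniqueness).  If `D u ≤ B 4^|u|` for all `u` then, since `D [] = 0` and
`D (i u) ≤ (5/2) B 4^n + B 4^(n-1) + ∑_v |k(i,v)| B 4^(|v|+n) ≤ 3 B 4^n = (3/4) B 4^(n+1)` (`n = |u|`),
also `D u ≤ (3/4) B 4^|u|`; iterate, `(3/4)^j B → 0`. -/
def RUNStmt : Prop :=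
  ∀ (m : ℕ) (k : Fin m → List (Fin m) → ℂ), Kb k → ∀ (D : List (Fin m) → ℝ) (B : ℝ),
    (∀ u, 0 ≤ D u) → (∀ u, D u ≤ B * 4 ^ u.length) → D [] = 0 →
    (∀ (i : Fin m) (u : List (Fin m)),
      D (i :: u) ≤ 5 / 2 * D u + hd i u D + ∑' v : List (Fin m), ‖k i v‖ * D (v ++ u)) →
    ∀ u, D u = 0

/-- **FIX** (existence).  Banach fixed point theorem (`ContractingWith.fixedPoint`) in the space of
bounded functions `g : List (Fin m) → E` (`BoundedContinuousFunction` on a discrete space, or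
`lp (fun _ => E) ∞`), `F u = 4^|u| g u`; the map `F ↦ F'`, `F' [] = e`,
`F' (i u) = X_i (F u) - hd i u F - ∑_v k(i,v) F (v u)` is a contraction with constant `3/4` (as in
`RUN`). -/
def FIXStmt : Prop :=
  ∀ (m : ℕ) (k : Fin m → List (Fin m) → ℂ), Kb k → ∀ (E : Type) [NormedAddCommGroup E]
    [NormedSpace ℂ E] [CompleteSpace E] (X : Fin m → (E →L[ℂ] E)) (e : E), (∀ i, ‖X i‖ ≤ 5 / 2) →
    ∃ F : List (Fin m) → E, Sol k (fun i => X i) e F

/-- **RRC** (the recursion from the right).  Put `G [] = e`,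
`G (u ++ [j]) = Y_j (F u) - tl j u F - ∑_v k(j,v) F (u ++ v)`.  Then `G [i] = F [i]` (`X_i e = Y_i e`)
and for `u ≠ []`: `X_i (G u) = G (i u) + hd i u G + ∑_v k(i,v) G (v u)`.  For `u = u' ++ [j]`, `u' ≠ []`
this is the recursion for `F` at `u'`, at `u''` (if `u' = u'' ++ [j]`) and at `u' ++ v`, and `X_i Y_j =
Y_j X_i`.  For `u = [j]`: `X_i (G [j]) = X_i Y_j e - ∑_v k(j,v) X_i (F v)`; the recursion for `F` at `v`
and `Y_j (X_i e) = Y_j (F [i] + ∑_a k(i,a) F a)`; it remains `∑_z k(j, i z) F z = ∑_c k(i, c j) F c`,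
true by `CY`.  So `D u = ‖G u - F u‖` satisfies the hypotheses of `RUN`. -/
def RRCStmt : Prop :=
  ∀ (m : ℕ) (k : Fin m → List (Fin m) → ℂ), Kb k → CY k → ∀ (E : Type) [NormedAddCommGroup E]
    [NormedSpace ℂ E] [CompleteSpace E] (X Y : Fin m → (E →L[ℂ] E)) (e : E)
    (F : List (Fin m) → E), (∀ i, ‖X i‖ ≤ 5 / 2) → (∀ i, ‖Y i‖ ≤ 5 / 2) →
    (∀ i j f, X i (Y j f) = Y j (X i f)) → (∀ i, X i e = Y i e) → Sol k (fun i => X i) e F →
    ∀ (j : Fin m) (u : List (Fin m)),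
      Y j (F u) = F (u ++ [j]) + tl j u F + ∑' v : List (Fin m), k j v • F (u ++ v)

/-- **CMT**.  `X_i (F [i]) = F [i,i] + F [] + ∑_v k(i,v) F (v ++ [i])`,
`Y_i (F [i]) = F [i,i] + F [] + ∑_v k(i,v) F (i :: v)`.  Both double sums are
`∑_{w ≠ []} κ(w) F w`, `κ (i :: v) = k(i,v)` and `κ (v ++ [i]) = k(i,v)` (the same by `CY`); reindex by
`(i, v) ↦ i :: v` and `(i, v) ↦ v ++ [i]` (absolutely convergent by `Kb` and `Sol.bdd`). -/
def CMTStmt : Prop :=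
  ∀ (m : ℕ) (k : Fin m → List (Fin m) → ℂ), Kb k → CY k → ∀ (E : Type) [NormedAddCommGroup E]
    [NormedSpace ℂ E] [CompleteSpace E] (X Y : Fin m → E → E) (e : E) (F : List (Fin m) → E),
    Sol k X e F → (∀ (j : Fin m) (u : List (Fin m)),
      Y j (F u) = F (u ++ [j]) + tl j u F + ∑' v : List (Fin m), k j v • F (u ++ v)) →
    ∑ i, X i (F [i]) = ∑ i, Y i (F [i])

/-! ### The space `ℓ¹` of power series -/

/-- **LIF** (universal property of `ℓ¹`).  `L f = ∑' w, f w • g w`; `‖f w • g w‖ ≤ C ‖f w‖`,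
`∑ ‖f w‖ = ‖f‖` (`lp.norm_eq_tsum_rpow`, `lp.hasSum_norm` with exponent `1`);
`LinearMap.mkContinuous`. -/
def LIFStmt : Prop :=
  ∀ (m : ℕ) (G : Type) [NormedAddCommGroup G] [NormedSpace ℂ G] [CompleteSpace G]
    (g : List (Fin m) → G) (C : ℝ), 0 ≤ C → (∀ w, ‖g w‖ ≤ C) →
    ∃ L : E1 m →L[ℂ] G, (∀ w, L (bb w) = g w) ∧ ‖L‖ ≤ C ∧
      ∀ f : E1 m, HasSum (fun w => f w • g w) (L f)

/-- **EXT**.  `f = ∑ f w • bb w` (`lp.hasSum_single`), continuity. -/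
def EXTStmt : Prop :=
  ∀ (m : ℕ) (G : Type) [NormedAddCommGroup G] [NormedSpace ℂ G] (L L' : E1 m →L[ℂ] G),
    (∀ w, L (bb w) = L' (bb w)) → L = L'

/-- **SHL** (multiplication by the letters).  `LIF` with `g w = (5/2) bb (i w)`, resp. `(5/2) bb (w i)`
(`‖bb w‖ = 1`), commutation by `EXT`. -/
def SHLStmt : Prop :=
  ∀ m : ℕ, ∃ X Y : Fin m → (E1 m →L[ℂ] E1 m), (∀ i, ‖X i‖ ≤ 5 / 2) ∧ (∀ i, ‖Y i‖ ≤ 5 / 2) ∧
    (∀ i w, X i (bb w) = (5 / 2 : ℂ) • bb (i :: w)) ∧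
    (∀ i w, Y i (bb w) = (5 / 2 : ℂ) • bb (w ++ [i])) ∧ ∀ i j f, X i (Y j f) = Y j (X i f)

/-- **COE** (the coefficients are cyclic).  The coefficient functionals `δ_W f = f W` are continuous
and linear (`LIF`), `δ_W (X_i f) = (5/2) f W'` if `W = i :: W'`, otherwise `0`, and
`δ_W (Y_i f) = (5/2) f W''` if `W = W'' ++ [i]`, otherwise `0` (`EXT`); compare the coefficients of
`a :: u = v ++ [b]` in the hypothesis. -/
def COEStmt : Prop :=
  ∀ (m : ℕ) (X Y : Fin m → (E1 m →L[ℂ] E1 m)),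
    (∀ i w, X i (bb w) = (5 / 2 : ℂ) • bb (i :: w)) →
    (∀ i w, Y i (bb w) = (5 / 2 : ℂ) • bb (w ++ [i])) → ∀ F : Fin m → E1 m,
    ∑ i, X i (F i) = ∑ i, Y i (F i) →
    ∀ (a b : Fin m) (u v : List (Fin m)), a :: u = v ++ [b] → F a u = F b v

/-- **GRD** (cyclic coefficients give a cyclic gradient).  `H n = ∑ over the words W = a :: u of length
l, 1 ≤ l ≤ n, of (c a u / l) e_W`.  For fixed `l` and `k < l` the words `W` of length `l` with `W_k = i`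
correspond to the words `w = W.drop (k+1) ++ W.take k` of length `l - 1`, and `c (head W) (tail W) =
c i w` (the hypothesis says that `a :: u ↦ c a u` is invariant under rotation).  So the sum over `W` is
`(1/l) ∑_{k<l} ∑_w c i w ev x w`. -/
def GRDStmt : Prop :=
  ∀ (m : ℕ) (c : Fin m → List (Fin m) → ℂ),
    (∀ (a b : Fin m) (u v : List (Fin m)), a :: u = v ++ [b] → c a u = c b v) →
    ∃ H : ℕ → (List (Fin m) →₀ ℂ), ∀ (A : Type) [Ring A] [Algebra ℂ A] (x : Fin m → A) (i : Fin m)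
      (n : ℕ), ((H n).sum fun w r => r • cg x i w) = ∑ w ∈ wds m n, c i w • ev x w

/-- **EVA** (evaluation of power series).  `LIF` with `g w = (2/5)^|w| ev x w`, `‖ev x w‖ ≤ (5/2)^|w|`
(if `A` is trivial everything is `0`); last part: `EXT`. -/
def EVAStmt : Prop :=
  ∀ (m : ℕ) (A : Type) [CStarAlgebra A] (x : Fin m → A), (∀ i, ‖x i‖ ≤ 5 / 2) →
    ∃ V : E1 m →L[ℂ] A, (∀ w, V (bb w) = ((2 / 5 : ℂ) ^ w.length) • ev x w) ∧
      (∀ f : E1 m, HasSum (fun w => (f w * (2 / 5) ^ w.length) • ev x w) (V f)) ∧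
      ∀ X : Fin m → (E1 m →L[ℂ] E1 m), (∀ i w, X i (bb w) = (5 / 2 : ℂ) • bb (i :: w)) →
        ∀ i f, V (X i f) = x i * V f

/-! ### The conjugate variables -/

/-- **NBD**.  Induction on `u`, for all `w`.  `u = []`: `(9/4)^n ≤ (5/2)^n`.  `a :: u`: `CON` with
`v = []`: `≤ ∑_{k<n} 4^|u| (5/2)^k (9/4)^(n-1-k) = 4^|u| ((5/2)^n - (9/4)^n) / (1/4)` (`n = |w|`;
`Commute.geom_sum₂_mul` or induction). -/
def NBDStmt : Prop :=
  ∀ (m : ℕ) (κ : Fin m → List (Fin m) → ℂ),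
    (∀ w : List (Fin m), ‖nn κ w []‖ ≤ (9 / 4) ^ w.length) →
    ∀ u w : List (Fin m), ‖nn κ w u‖ ≤ 4 ^ u.length * (5 / 2) ^ w.length

/-- **LAM**.  `d_u(w) = τ (ev x w * G u) - nn (kx k) w u`; `|d_u(w)| ≤ B 4^|u| (5/2)^|w|` (`Sol.bdd`,
`NBD`); `D u = sup_w |d_u(w)| (2/5)^|w|`.  `D [] = 0` (law).  For `w ++ [i]`:
`τ (ev x (w i) G_u) = τ (ev x w (x_i G_u))` = recursion of `G` (`τ` is continuous: `IsTrace.norm`), and
`nn (kx k) (w i) u = hd i u + nn w (i u) + ∑_v k(i,v) nn w (v u)` (`TCO`, `kx`).  So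
`d_(iu)(w) = d_u(w i) - hd i u (d w) - ∑_v k(i,v) d_(vu)(w)`, hence `D (i u) ≤ (5/2) D u + hd i u D +
∑_v |k(i,v)| D (v u)`; `RUN`. -/
def LAMStmt : Prop :=
  ∀ (m : ℕ) (k : Fin m → List (Fin m) → ℂ), Kb k → ∀ (A : Type) [CStarAlgebra A]
    (τ : A →ₗ[ℂ] ℂ), IsTrace τ → ∀ x : Fin m → A, (∀ i, ‖x i‖ ≤ 9 / 4) →
    (∀ w : List (Fin m), τ (ev x w) = nn (kx k) w []) →
    ∀ G : List (Fin m) → A, Sol k (fun i a => x i * a) 1 G →
    ∀ u w : List (Fin m), τ (ev x w * G u) = nn (kx k) w u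

/-- **JDQ**.  `LAM` for `u = [i]`, `IsTrace.comm`, `CON` with `u = v = []`, law. -/
def JDQStmt : Prop :=
  ∀ (m : ℕ) (k : Fin m → List (Fin m) → ℂ), Kb k → ∀ (A : Type) [CStarAlgebra A]
    (τ : A →ₗ[ℂ] ℂ), IsTrace τ → ∀ x : Fin m → A, (∀ i, ‖x i‖ ≤ 9 / 4) →
    (∀ w : List (Fin m), τ (ev x w) = nn (kx k) w []) →
    ∀ G : List (Fin m) → A, Sol k (fun i a => x i * a) 1 G →
    ∀ (i : Fin m) (w : List (Fin m)), τ (G [i] * ev x w) = dq (fun w => τ (ev x w)) i w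

/-- `J` are the conjugate variables of `x`, and limits of cyclic gradients. -/
def Lim {m : ℕ} {A : Type} [CStarAlgebra A] (τ : A →ₗ[ℂ] ℂ) (x : Fin m → A) : Prop :=
  ∃ (J : Fin m → A) (H : ℕ → (List (Fin m) →₀ ℂ)),
    (∀ (i : Fin m) (w : List (Fin m)), τ (J i * ev x w) = dq (fun w => τ (ev x w)) i w) ∧
    ∀ i, Tendsto (fun n => (H n).sum fun w r => r • cg x i w) atTop (𝓝 (J i))

/-- **PT1** (tuples with small cumulants).  `SHL`, `FIX` in `E1 m` with `e = bb []`: `F`; `RRC`, `CMT`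
(`X_i (bb []) = Y_i (bb [])`), `COE`: the coefficients of `F [i]` are cyclic, also after multiplication
by `(2/5)^|w|` (the words `u`, `v` have the same length); `GRD`: `H`.  `EVA`: `V`, `G u = V (F u)`,
`Sol k (x_i *) 1 G`; `JDQ` for `J i = G [i]`; the partial sums over `wds m n` converge to `V (F [i])`
(`HasSum`, every finite set of words is contained in some `wds m n`). -/
def PT1Stmt : Prop :=
  ∀ (m : ℕ) (k : Fin m → List (Fin m) → ℂ), Kb k → CY k → ∀ (A : Type) [CStarAlgebra A]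
    (τ : A →ₗ[ℂ] ℂ), IsTrace τ → ∀ x : Fin m → A, (∀ i, ‖x i‖ ≤ 9 / 4) →
    (∀ w : List (Fin m), τ (ev x w) = nn (kx k) w []) → Lim τ x

/-- **MN1** (`s = 1`).  `k = ky τ y`: `KBD`, `PEX`, `CYC` (`nn k (i :: w) [] = τ (y_i ev y w) =
nn k (w ++ [i]) []`), `MCZ`, `IOT`; `‖y_i + S_i‖ ≤ 1/100 + 2` (`NRM`, `MOM`, `catalan n ≤ 4^n` from
`Nat.centralBinom`), `PT1`. -/
def MN1Stmt : Prop :=
  ∀ (m : ℕ) (A : Type) [CStarAlgebra A] (τ : A →ₗ[ℂ] ℂ), IsTrace τ → ∀ (y S : Fin m → A) (R : ℝ),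
    (∀ i, IsSelfAdjoint (y i)) → (∀ i, IsSelfAdjoint (S i)) → IsSemi τ y S →
    (∀ i, ‖y i‖ ≤ R) → 100 * m * R ≤ 1 → Lim τ fun i => y i + S i

/-- **SCL** (scaling).  `y' = y / s`; `IsSemi τ y' S` from `IsSemi τ y S` (each word is multiplied by
`s^(- number of y's)`), `x = s x'`, `J = J' / s`, `H_n (w) = s^(-|w|) H'_n (w)`,
`cg x i w = s^(|w|-1) cg x' i w`, `dq` has `|w| - 1` letters in each term. -/
def SCLStmt : Prop :=
  MN1Stmt → ∀ (m : ℕ) (A : Type) [CStarAlgebra A] (τ : A →ₗ[ℂ] ℂ), IsTrace τ →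
    ∀ (y S : Fin m → A) (s R : ℝ), 0 < s → (∀ i, IsSelfAdjoint (y i)) →
    (∀ i, IsSelfAdjoint (S i)) → IsSemi τ y S → (∀ i, ‖y i‖ ≤ R) → 100 * m * R ≤ s →
    Lim τ fun i => y i + (s : ℂ) • S i

end Pool.CGR
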